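import Pool.Agent.U398.MV.Fin8

set_option autoImplicit false

/-!
# The spectral rigidity of the zeta zeros in almost every window, unconditionally

Project MV8: helper398 (lead), helper505, helper411, helper765, helper776, helper669, helper694, on top of the
projects MV, MV2, MV3, MV4.
-/

namespace Pool.Agent.Results.MP_7eacff_nt.DysonMehtaStatistic

open MeasureTheory Set

noncomputable section

/-- the number of nontrivial zeros of `ζ` with ordinate in `(0, t]`, with multiplicity -/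
def NZ (t : ℝ) : ℕ :=
  ∑ᶠ s ∈ {s : ℂ | riemannZeta s = 0 ∧ 0 < s.re ∧ s.re < 1 ∧ 0 < s.im ∧ s.im ≤ t}, analyticOrderNatAt riemannZeta s

/-- the Dyson-Mehta statistic of the window `[t, t + l]`: the least mean square deviation of the staircase `NZ`
from a straight line -/
def Delta3 (l t : ℝ) : ℝ :=
  ⨅ p : ℝ × ℝ, 1 / l * ∫ y in t..(t + l), ((NZ y : ℝ) - p.1 - p.2 * y) ^ 2

/-- `Λ` = number of mean spacings in the window -/
theorem result : ∀ B : ℝ, 1 ≤ B → ∃ C T₀ : ℝ, ∀ T : ℝ, T₀ ≤ T → ∀ Λ : ℝ, 1 ≤ Λ → Λ ≤ B * Real.log T →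
    ∀ K : ℝ, 0 < K →
    volume {t : ℝ | t ∈ Icc T (2 * T) ∧ K * (1 + Real.log Λ) ^ (3 / 4 : ℝ) <
        |Delta3 (2 * Real.pi * Λ / Real.log T) t - Real.log Λ / (2 * Real.pi ^ 2)|} ≤
      ENNReal.ofReal (C * T / K) := by
  intro B hB
  obtain ⟨C, T0, -, -, H⟩ := Pool.Agent.U398.MV.th8 B hB
  exact ⟨C, T0, fun T hT Λ h1 h2 K hK => H T hT Λ h1 h2 K hK⟩

end

end Pool.Agent.Results.MP_7eacff_nt.DysonMehtaStatistic
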