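import Pool.Agent.R838.ST.Cry
import Pool.Agent.U663.SpL.Zeta

/-!
# MP_7eacff_nt: the spacings of the zeros of zeta and of the de Bruijn-Newman family

`H t z` is the integral of `exp (t * u ^ 2) * Phi u * cos (z * u)` over `u > 0`, so that `H 0 z` is
`ξ(1/2 + i z / 2) / 8`: the zeros of `H 0` are the numbers `z` for which `1/2 + i z / 2` is a
nontrivial zero of zeta, and `Re z / 2` is its ordinate. The mean spacing of the ordinates at height
`T` is `2π / log T`.

No hypothesis is assumed (in particular not the Riemann hypothesis; on the Riemann hypothesis the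
ordinates are those of the problem).

* At times `t ≤ δ / log² T` the spacings of consecutive zeros of `H t` up to height `T` have the same
  distribution as those of zeta: the numbers of the consecutive pairs whose normalised distance is in
  `[α, β]` agree up to a change of `α` and `β` by `ε` and up to an error `ε T log T`.
* Let `t(T) log² T → 0`. Then for every continuous `F`, the unfolded gaps `δ_n` of the zeros of zeta
  have the limiting distribution `F` (the proportion of the `n ≤ N` with `α ≤ δ_n ≤ β` tends to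
  `F β - F α` for all `0 < α < β`) if and only if the normalised spacings of the zeros of `H (t T)` up
  to height `T` have this limiting distribution. For `F s = ∫_0^s p`, with the Gaudin density `p`, the
  former is Q1.
* If `t(T) log² T → ∞` and `t(T) log T` is bounded, then almost all normalised spacings of the zeros
  of `H (t T)` tend to `1`. So the time scale `1 / log² T` is the right one.
-/

set_option autoImplicit false

open Filter Topology Set

namespace Pool.Agent.Results.MP_7eacff_nt.HeatFlowSpacings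

/-- The de Bruijn-Newman kernel. -/
noncomputable def Phi (u : ℝ) : ℝ := ∑' n : ℕ,
  (2 * Real.pi ^ 2 * ((n : ℝ) + 1) ^ 4 * Real.exp (9 * u) -
    3 * Real.pi * ((n : ℝ) + 1) ^ 2 * Real.exp (5 * u)) *
    Real.exp (-(Real.pi * ((n : ℝ) + 1) ^ 2 * Real.exp (4 * u)))

/-- The de Bruijn-Newman family: the integral of `exp (t u²) Φ(u) cos (z u)` over `u > 0`. -/
noncomputable def H (t : ℝ) (z : ℂ) : ℂ :=
  ∫ u in Set.Ioi (0 : ℝ), ((Real.exp (t * u ^ 2) * Phi u : ℝ) : ℂ) * Complex.cos (z * u)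

/-- multiplicity of `s` as a zero of the Riemann zeta function (order of vanishing at `s`) -/
noncomputable def zmult (s : ℂ) : ℕ := analyticOrderNatAt riemannZeta s

/-- the number of nontrivial zeros of `ζ` with ordinate in `(0, t]`, with multiplicity -/
noncomputable def NZ (t : ℝ) : ℕ :=
  ∑ᶠ s ∈ {s : ℂ | riemannZeta s = 0 ∧ 0 < s.re ∧ s.re < 1 ∧ 0 < s.im ∧ s.im ≤ t}, zmult s

/-- for `n ≥ 1`: the `n`-th positive ordinate `γ n` of a nontrivial zero of `ζ`, the ordinates being
listed in nondecreasing order and repeated according to multiplicity -/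
noncomputable def γ (n : ℕ) : ℝ := sInf {t : ℝ | n ≤ NZ t}

/-- the unfolded consecutive gaps `δ_n = (γ_{n+1} - γ_n) / 2π · log (γ_n / 2π)` -/
noncomputable def δ (n : ℕ) : ℝ := (γ (n + 1) - γ n) / (2 * Real.pi) * Real.log (γ n / (2 * Real.pi))

/-- the proportion of the indices `1 ≤ n ≤ N` for which `δ_n` lies in the set `I` -/
noncomputable def P (N : ℕ) (I : Set ℝ) : ℝ :=
  (1 / N : ℝ) * ({n : ℕ | 1 ≤ n ∧ n ≤ N ∧ δ n ∈ I}.ncard : ℝ)

/-- The unfolded gaps of the zeros of zeta have the limiting distribution `F` on `(0, ∞)`. For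
`F s = ∫_0^s p` with the Gaudin density `p` this is Q1. -/
def ZetaLaw (F : ℝ → ℝ) : Prop := ∀ α β : ℝ, 0 < α → α < β →
  Tendsto (fun N : ℕ => P N (Icc α β)) atTop (𝓝 (F β - F α))

/-- the ordinates of the nontrivial zeros of zeta -/
def zetaOrd : Set ℝ := {y | ∃ s : ℂ, 0 < s.re ∧ s.re < 1 ∧ riemannZeta s = 0 ∧ s.im = y}

/-- the ordinates of the zeros of `H t` -/
def heatOrd (t : ℝ) : Set ℝ := {y | ∃ z : ℂ, H t z = 0 ∧ z.re / 2 = y}

/-- pairs of consecutive different elements of a set -/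
def consecutive (A : Set ℝ) : Set (ℝ × ℝ) :=
  {p | p.1 < p.2 ∧ p.1 ∈ A ∧ p.2 ∈ A ∧ ∀ y ∈ A, ¬ (p.1 < y ∧ y < p.2)}

/-- the number of the pairs of consecutive different elements of `A` in `(0, T]` whose distance,
divided by the mean spacing `2π / log T`, is in `[α, β]` -/
noncomputable def spacings (A : Set ℝ) (T α β : ℝ) : ℝ :=
  ({p | p ∈ consecutive A ∧ 0 < p.1 ∧ p.2 ≤ T ∧ α ≤ (p.2 - p.1) * (Real.log T / (2 * Real.pi)) ∧
    (p.2 - p.1) * (Real.log T / (2 * Real.pi)) ≤ β}.ncard : ℝ)

/-- the same for the pairs whose normalised distance differs from `1` by at least `ε` -/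
noncomputable def irregular (A : Set ℝ) (T ε : ℝ) : ℝ :=
  ({p | p ∈ consecutive A ∧ 0 < p.1 ∧ p.2 ≤ T ∧
    ε ≤ |(p.2 - p.1) * (Real.log T / (2 * Real.pi)) - 1|}.ncard : ℝ)

/-- The normalised spacings of the zeros of `H (t T)` up to height `T` have the limiting distribution
`F` on `(0, ∞)`; the number of the zeros is asymptotically `T log T / 2π`. -/
def HeatLaw (t : ℝ → ℝ) (F : ℝ → ℝ) : Prop := ∀ α β : ℝ, 0 < α → α < β →
  Tendsto (fun T => spacings (heatOrd (t T)) T α β / (T * Real.log T / (2 * Real.pi))) atTop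
    (𝓝 (F β - F α))

open Pool.Agent.R838.ST

theorem cmp' (α β ε : ℝ) (hε : 0 < ε) (hεα : ε ≤ α) : ∃ c T₀ : ℝ, 0 < c ∧ 2 ≤ T₀ ∧
    ∀ T t : ℝ, T₀ ≤ T → 0 ≤ t → t ≤ c / Real.log T ^ 2 →
      spacings zetaOrd T α β ≤
        spacings (heatOrd t) T (α - ε) (β + ε) + ε * (T * Real.log T) ∧
      spacings (heatOrd t) T α β ≤
        spacings zetaOrd T (α - ε) (β + ε) + ε * (T * Real.log T) := cmpP α β ε hε hεα

lemma ev_time {t : ℝ → ℝ} (ht2 : Tendsto (fun T => t T * Real.log T ^ 2) atTop (𝓝 0)) {c : ℝ}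
    (hc : 0 < c) : ∀ᶠ T : ℝ in atTop, t T ≤ c / Real.log T ^ 2 := by
  filter_upwards [ht2.eventually_lt_const hc, eventually_gt_atTop (1 : ℝ)] with T h1 h2
  have hL : 0 < Real.log T := Real.log_pos h2
  rw [le_div_iff₀ (by positivity)]
  exact h1.le

theorem law_iff {t : ℝ → ℝ} (ht : ∀ T, 0 ≤ t T)
    (ht2 : Tendsto (fun T => t T * Real.log T ^ 2) atTop (𝓝 0)) {F : ℝ → ℝ}
    (hF : ContinuousOn F (Ioi 0)) : ZetaLaw F ↔ HeatLaw t F := by
  have h0 : ZetaLaw F ↔ ∀ α β : ℝ, 0 < α → α < β →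
      Tendsto (fun T => spacings zetaOrd T α β / U663.SpL.X T) atTop (𝓝 (F β - F α)) :=
    U663.SpL.zeta_cnt.spacing_iff hF
  rw [h0]
  have key : ∀ α β ε : ℝ, 0 < ε → ε < α → ∀ᶠ T : ℝ in atTop,
      spacings zetaOrd T α β ≤
        spacings (heatOrd (t T)) T (α - ε) (β + ε) + ε * (T * Real.log T) ∧
      spacings (heatOrd (t T)) T α β ≤
        spacings zetaOrd T (α - ε) (β + ε) + ε * (T * Real.log T) := by
    intro α β ε hε hεα
    obtain ⟨c, T0, hc, -, h⟩ := cmp' α β ε hε hεα.le
    filter_upwards [ev_time ht2 hc, eventually_ge_atTop T0] with T h1 h2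
    exact h T (t T) h2 (ht T) h1
  constructor
  · intro hL α β hα hβ
    exact U663.SpL.transfer (f := fun T a b => spacings zetaOrd T a b)
      (g := fun T a b => spacings (heatOrd (t T)) T a b) hF
      (fun a b e he hea => (key a b e he hea).mono fun T h => h.2)
      (fun a b e he hea => (key a b e he hea).mono fun T h => h.1) hL hα hβ
  · intro hL α β hα hβ
    exact U663.SpL.transfer (f := fun T a b => spacings (heatOrd (t T)) T a b)
      (g := fun T a b => spacings zetaOrd T a b) hF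
      (fun a b e he hea => (key a b e he hea).mono fun T h => h.1)
      (fun a b e he hea => (key a b e he hea).mono fun T h => h.2) hL hα hβ

theorem large {t : ℝ → ℝ} {A : ℝ} (hA : ∀ᶠ T : ℝ in atTop, t T * Real.log T ≤ A)
    (ht : Tendsto (fun T => t T * Real.log T ^ 2) atTop atTop) {ε η : ℝ} (hε : 0 < ε)
    (hη : 0 < η) : ∀ᶠ T : ℝ in atTop, irregular (heatOrd (t T)) T ε ≤ η * (T * Real.log T) := by
  obtain ⟨e, he⟩ : ∃ e, e = min (min ε η) 1 := ⟨_, rfl⟩
  have he0 : 0 < e := by rw [he]; positivity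
  have he1 : e ≤ 1 := by rw [he]; exact min_le_right _ _
  have he2 : e ≤ ε := by rw [he]; exact (min_le_left _ _).trans (min_le_left _ _)
  have he3 : e ≤ η := by rw [he]; exact (min_le_left _ _).trans (min_le_right _ _)
  obtain ⟨K, T0, hK, hT0, h⟩ := cryB stb_xi unit0_xi e (|A| + 1) he0 he1 (by positivity)
  filter_upwards [hA, ht.eventually_ge_atTop (4 * K), eventually_ge_atTop T0] with T h1 h2 h3
  have hT1 : 2 ≤ T := hT0.trans h3
  have hL : 0 < Real.log T := Real.log_pos (by linarith)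
  have htp : 0 ≤ t T := by
    by_contra hc
    push Not at hc
    have : t T * Real.log T ^ 2 < 0 := mul_neg_of_neg_of_pos hc (by positivity)
    linarith
  have k1 : K ≤ t T / 4 * Real.log T ^ 2 := by linarith
  have k2 : t T / 4 * Real.log T ≤ |A| + 1 := by
    have := le_abs_self A
    have : 0 ≤ t T * Real.log T := by positivity
    linarith
  have h4 := h T (t T / 4) h3 k1 k2
  have hsub : {p | p ∈ consecutive (heatOrd (t T)) ∧ 0 < p.1 ∧ p.2 ≤ T ∧
      ε ≤ |(p.2 - p.1) * (Real.log T / (2 * Real.pi)) - 1|} ⊆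
      BS (Od (Pool.Agent.H986R2.DBN.XT (t T / 4))) T e 0 T := by
    rintro p ⟨a1, a2, a3, a4⟩
    have e1 : heatOrd (t T) = Od (Pool.Agent.H986R2.DBN.XT (t T / 4)) := ht_od htp
    have a1' : p ∈ CP (Od (Pool.Agent.H986R2.DBN.XT (t T / 4))) := by
      rw [← e1]
      exact a1
    exact ⟨a1', a2, a1.1.le.trans a3, a3, he2.trans a4⟩
  have hfin : (BS (Od (Pool.Agent.H986R2.DBN.XT (t T / 4))) T e 0 T).Finite :=
    (BS_fin (stb_xi.heatd _ (by positivity)) (fun s hs => stb_xi.strip _ s (by positivity) hs)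
      T e 0 T le_rfl).2
  have h5 : irregular (heatOrd (t T)) T ε ≤
      ((BS (Od (Pool.Agent.H986R2.DBN.XT (t T / 4))) T e 0 T).ncard : ℝ) := by
    unfold irregular
    exact_mod_cast Set.ncard_le_ncard hsub hfin
  have h6 : e * (T * Real.log T) ≤ η * (T * Real.log T) :=
    mul_le_mul_of_nonneg_right he3 (by positivity)
  linarith

/-- (1) Comparison of the spacings of the zeros of zeta and of `H t`, `t ≤ c / log² T`. (2) For
`t(T) log² T → 0`: a law for the unfolded gaps of the zeros of zeta, with a continuous distribution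
function, holds if and only if it holds for the zeros of `H (t T)`. (3) For `t(T) log² T → ∞`, with
`t(T) log T` bounded, almost all normalised spacings of the zeros of `H (t T)` are close to `1`. -/
theorem result :
    (∀ α β ε : ℝ, 0 < ε → ε ≤ α → ∃ c T₀ : ℝ, 0 < c ∧ 2 ≤ T₀ ∧
      ∀ T t : ℝ, T₀ ≤ T → 0 ≤ t → t ≤ c / Real.log T ^ 2 →
        spacings zetaOrd T α β ≤
          spacings (heatOrd t) T (α - ε) (β + ε) + ε * (T * Real.log T) ∧
        spacings (heatOrd t) T α β ≤
          spacings zetaOrd T (α - ε) (β + ε) + ε * (T * Real.log T)) ∧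
    (∀ t : ℝ → ℝ, (∀ T, 0 ≤ t T) → Tendsto (fun T => t T * Real.log T ^ 2) atTop (𝓝 0) →
      ∀ F : ℝ → ℝ, ContinuousOn F (Ioi 0) → (ZetaLaw F ↔ HeatLaw t F)) ∧
    (∀ (t : ℝ → ℝ) (A : ℝ), (∀ᶠ T in atTop, t T * Real.log T ≤ A) →
      Tendsto (fun T => t T * Real.log T ^ 2) atTop atTop → ∀ ε η : ℝ, 0 < ε → 0 < η →
        ∀ᶠ T : ℝ in atTop, irregular (heatOrd (t T)) T ε ≤ η * (T * Real.log T)) :=
  ⟨cmp', fun _ ht ht2 _ hF => law_iff ht ht2 hF, fun _ _ hA ht _ _ hε hη => large hA ht hε hη⟩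

end Pool.Agent.Results.MP_7eacff_nt.HeatFlowSpacings
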