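import Pool.Agent.U403.Max.Blk
import Pool.Agent.H177R3.LatD

/-!
# The maximal deviation of the sums of consecutive gaps

The Riemann hypothesis is assumed, as in the problem. Let `S_b(n) = δ_n + δ_{n+1} + … + δ_{n+b-1}`; its mean
value is `b`, and for one `b` its deviation from `b` is typically of the order `√(log b)`. For almost every zero
the maximum over `1 ≤ b ≤ r` of `S_b(n) - b` and the maximum over `1 ≤ b ≤ r` of `b - S_b(n)` are both equal to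
`(1/π + o(1)) log r`. The same constant `1/π` holds for the eigenvalues of the Gaussian unitary ensemble.
-/

set_option autoImplicit false

open Filter

namespace Pool.Agent.Results.MP_7eacff_nt.MaximalDeviation

/-- multiplicity of `s` as a zero of the Riemann zeta function (order of vanishing at `s`) -/
noncomputable def zmult (s : ℂ) : ℕ := analyticOrderNatAt riemannZeta s

/-- the number of nontrivial zeros of `ζ` with ordinate in `(0, t]`, with multiplicity -/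
noncomputable def NZ (t : ℝ) : ℕ :=
  ∑ᶠ s ∈ {s : ℂ | riemannZeta s = 0 ∧ 0 < s.re ∧ s.re < 1 ∧ 0 < s.im ∧ s.im ≤ t}, zmult s

/-- for `n ≥ 1`: the `n`-th positive ordinate `γ n` of a nontrivial zero of `ζ`, the ordinates being
listed in nondecreasing order and repeated according to multiplicity -/
noncomputable def γ (n : ℕ) : ℝ := sInf {t : ℝ | n ≤ NZ t}

/-- the unfolded consecutive gaps `δ_n = (γ_{n+1} - γ_n) / 2π · log (γ_n / 2π)` -/
noncomputable def δ (n : ℕ) : ℝ := (γ (n + 1) - γ n) / (2 * Real.pi) * Real.log (γ n / (2 * Real.pi))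

/-- the deviation `δ_n + δ_{n+1} + … + δ_{n+b-1} - b` of a sum of `b` consecutive gaps from its mean value -/
noncomputable def dev (b n : ℕ) : ℝ := ∑ i ∈ Finset.range b, δ (n + i) - b

/-- **The maximal deviation at almost every zero.**  On the Riemann hypothesis, for every `ε > 0` and all
`r ≥ r₀(ε)`, `N ≥ N₀(ε, r)`, all but at most `ε N` of the `n ≤ N` satisfy
`(1/π - ε) log r ≤ max_{1 ≤ b ≤ r} dev b n ≤ (1/π + ε) log r` and
`(1/π - ε) log r ≤ max_{1 ≤ b ≤ r} (-dev b n) ≤ (1/π + ε) log r`. -/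
theorem result (RH : RiemannHypothesis) (ε : ℝ) (hε : 0 < ε) :
    ∃ r₀ : ℕ, ∀ r : ℕ, r₀ ≤ r → ∃ N₀ : ℕ, ∀ N : ℕ, N₀ ≤ N →
      ({n : ℕ | 1 ≤ n ∧ n ≤ N ∧ ¬ (
        (∃ b : ℕ, 1 ≤ b ∧ b ≤ r ∧ (1 / Real.pi - ε) * Real.log r ≤ dev b n) ∧
        (∀ b : ℕ, 1 ≤ b → b ≤ r → dev b n ≤ (1 / Real.pi + ε) * Real.log r) ∧
        (∃ b : ℕ, 1 ≤ b ∧ b ≤ r ∧ (1 / Real.pi - ε) * Real.log r ≤ -dev b n) ∧
        (∀ b : ℕ, 1 ≤ b → b ≤ r → -dev b n ≤ (1 / Real.pi + ε) * Real.log r))}.ncard : ℝ) ≤ ε * N := by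
  classical
  obtain ⟨r₀, h⟩ := eventually_atTop.1 (Pool.Agent.U403.Max.maxdev (H177.Lat.rhs_of RH) ε hε ε hε)
  refine ⟨r₀, fun r hr => ?_⟩
  obtain ⟨N₀, hN₀⟩ := eventually_atTop.1 (h r hr)
  refine ⟨N₀, fun N hN => ?_⟩
  have h1 := hN₀ N hN
  refine le_trans ?_ h1
  have hsub : {n : ℕ | 1 ≤ n ∧ n ≤ N ∧ ¬ (
        (∃ b : ℕ, 1 ≤ b ∧ b ≤ r ∧ (1 / Real.pi - ε) * Real.log r ≤ dev b n) ∧
        (∀ b : ℕ, 1 ≤ b → b ≤ r → dev b n ≤ (1 / Real.pi + ε) * Real.log r) ∧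
        (∃ b : ℕ, 1 ≤ b ∧ b ≤ r ∧ (1 / Real.pi - ε) * Real.log r ≤ -dev b n) ∧
        (∀ b : ℕ, 1 ≤ b → b ≤ r → -dev b n ≤ (1 / Real.pi + ε) * Real.log r))} ⊆
      (((Finset.Icc 1 N).filter fun n => ¬ Pool.Agent.U403.Max.GoodZ r ε n : Finset ℕ) : Set ℕ) := by
    rintro n ⟨h1, h2, h3⟩
    rw [Finset.mem_coe, Finset.mem_filter, Finset.mem_Icc]
    refine ⟨⟨h1, h2⟩, fun hg => h3 ?_⟩
    have hSS : ∀ b : ℕ, Pool.Agent.R320.CL.SS b n - b = dev b n := fun b => rfl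
    obtain ⟨g1, g2, g3⟩ := hg
    refine ⟨g2, fun b hb hbr => (le_abs_self _).trans (g1 b hb hbr), ?_, fun b hb hbr => (neg_le_abs _).trans (g1 b hb hbr)⟩
    obtain ⟨b, k1, k2, k3⟩ := g3
    refine ⟨b, k1, k2, k3.trans (le_of_eq ?_)⟩
    rw [← hSS b]
    ring
  have h2 := Set.ncard_le_ncard hsub (Finset.finite_toSet _)
  rw [Set.ncard_coe_finset] at h2
  exact_mod_cast h2

end Pool.Agent.Results.MP_7eacff_nt.MaximalDeviation
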