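import Pool.Agent.R320.JL.Fin
import Pool.Agent.U403.Mix

/-!
# The gaps between the zeros of zeta are not strongly mixing

No hypothesis is assumed. Take two blocks of `n` consecutive unfolded gaps with `k = n ^ κ` gaps between
them, `n` large. For a proportion `1/4 - arcsin ((1 - κ) / 2) / (2 π)` of the places (`1/4` for `κ ≥ 1`) both
blocks are longer than average. So the lengths of two long blocks are dependent even if there are many gaps
between the blocks, and every stationary process which is a limit of the sequence of the unfolded gaps has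
strong mixing coefficients `α(k) ≥ 1/12` for all `k`.
-/

set_option autoImplicit false

open Filter Topology MeasureTheory

namespace Pool.Agent.Results.MP_7eacff_nt.NotStronglyMixing

/-- multiplicity of `s` as a zero of the Riemann zeta function (order of vanishing at `s`) -/
noncomputable def zmult (s : ℂ) : ℕ := analyticOrderNatAt riemannZeta s

/-- the number of nontrivial zeros of `ζ` with ordinate in `(0, t]`, with multiplicity -/
noncomputable def NZ (t : ℝ) : ℕ :=
  ∑ᶠ s ∈ {s : ℂ | riemannZeta s = 0 ∧ 0 < s.re ∧ s.re < 1 ∧ 0 < s.im ∧ s.im ≤ t}, zmult s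

/-- for `n ≥ 1`: the `n`-th positive ordinate `γ n` of a nontrivial zero of `ζ`, the ordinates being
listed in nondecreasing order and repeated according to multiplicity -/
noncomputable def γ (n : ℕ) : ℝ := sInf {t : ℝ | n ≤ NZ t}

/-- the unfolded consecutive gaps `δ_n = (γ_{n+1} - γ_n) / 2π · log (γ_n / 2π)` -/
noncomputable def δ (n : ℕ) : ℝ := (γ (n + 1) - γ n) / (2 * Real.pi) * Real.log (γ n / (2 * Real.pi))

/-- the length of the block of `n` gaps which begins with the `j`-th gap:
`δ_j + δ_{j+1} + … + δ_{j+n-1}`; its average is `n` -/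
noncomputable def block (n j : ℕ) : ℝ := ∑ i ∈ Finset.range n, δ (j + i)

/-- the proportion of the `j` with `1 ≤ j ≤ N` which have the property `P` -/
noncomputable def prop (N : ℕ) (P : ℕ → Prop) : ℝ := ({j : ℕ | 1 ≤ j ∧ j ≤ N ∧ P j}.ncard : ℝ) / N

/-- `X_0, X_1, …` is a limit process of the sequence of the unfolded gaps: for a sequence `N_1 < N_2 < …`
and for each `m` the law of `(δ_n, …, δ_{n+m-1})`, `n` uniformly distributed in `1, …, N_j`, converges
weakly to the law of `(X_0, …, X_{m-1})` as `j → ∞`. -/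
def IsLimitProcess {Ω : Type} [MeasurableSpace Ω] (P : Measure Ω) (X : ℕ → Ω → ℝ) : Prop :=
  (∀ i, Measurable (X i)) ∧ ∃ N : ℕ → ℕ, StrictMono N ∧ ∀ (m : ℕ) (F : (Fin m → ℝ) → ℝ),
    Continuous F → (∃ C : ℝ, ∀ x, |F x| ≤ C) →
    Tendsto (fun j => (∑ n ∈ Finset.Icc 1 (N j), F (fun i => δ (n + i))) / N j) atTop
      (𝓝 (∫ ω, F (fun i => X i ω) ∂P))

/-- Rosenblatt's strong mixing coefficient `α(k)`: the least upper bound of `|P(A ∩ B) - P(A) P(B)|` for
the events `A` in the σ-algebra of `X_i`, `i < n`, and `B` in the σ-algebra of the `X_i`, `i ≥ n + k`,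
`n = 0, 1, …` -/
noncomputable def mixing {Ω : Type} [MeasurableSpace Ω] (P : Measure Ω) (X : ℕ → Ω → ℝ) (k : ℕ) : ℝ :=
  sSup {a : ℝ | ∃ (n : ℕ) (A B : Set Ω),
    MeasurableSet[⨆ i ∈ Set.Iio n, MeasurableSpace.comap (X i) inferInstance] A ∧
    MeasurableSet[⨆ i ∈ Set.Ici (n + k), MeasurableSpace.comap (X i) inferInstance] B ∧
    a = |P.real (A ∩ B) - P.real A * P.real B|}

theorem joint : Pool.Agent.U403.MX.Joint δ := fun c ε hε => Pool.Agent.R320.JL.joint c ε hε

/-- **The gaps between the zeros of zeta are not strongly mixing.**  Two blocks of `n` consecutive gaps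
with `k ≤ n ^ A` gaps between them are both longer than average for a proportion
`1/4 - arcsin (max 0 (1 - log k / log n) / 2) / (2 π) + o(1)` of the first `N` places (here `log 0 = 0`; the
proportion is `1/6 + o(1)` for fixed `k`), and each of them for a proportion `1/2 + o(1)`, as `n → ∞`,
uniformly in `k` and in `N` with `(2 n + k) log (2 n + k) ≤ log N`. Every limit process of the sequence of
the gaps has strong mixing coefficients `α(k) ≥ 1/12` for all `k`. -/
theorem result :
    (∀ A ε : ℝ, 0 < A → 0 < ε → ∃ n₀ : ℕ, ∀ n : ℕ, n₀ ≤ n → ∀ k : ℕ, (k : ℝ) ≤ (n : ℝ) ^ A →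
      ∀ N : ℕ, 1 ≤ N → (2 * n + k : ℕ) * Real.log (2 * n + k : ℕ) ≤ Real.log N →
      |prop N (fun j => n < block n j ∧ n < block n (j + n + k)) -
        (1 / 4 - Real.arcsin (max 0 (1 - Real.log k / Real.log n) / 2) / (2 * Real.pi))| ≤ ε ∧
      |prop N (fun j => n < block n j) - 1 / 2| ≤ ε ∧
      |prop N (fun j => n < block n (j + n + k)) - 1 / 2| ≤ ε) ∧
    (∀ (Ω : Type) [MeasurableSpace Ω] (P : Measure Ω) [IsProbabilityMeasure P] (X : ℕ → Ω → ℝ),
      IsLimitProcess P X → ∀ k : ℕ, 1 / 12 ≤ mixing P X k) := by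
  refine ⟨?_, ?_⟩
  · intro A ε hA hε
    obtain ⟨n₀, h⟩ := eventually_atTop.1 (Pool.Agent.U403.MX.blocks joint A ε hA hε)
    refine ⟨n₀, fun n hn k hk N hN hNr => ?_⟩
    have h1 := h n hn k hk N hN hNr
    have e : 1 / 4 - Real.arcsin (max 0 (1 - Real.log k / Real.log n) / 2) / (2 * Real.pi) =
        1 / 4 + Real.arcsin (Pool.Agent.U403.MX.rho n k) / (2 * Real.pi) := by
      unfold Pool.Agent.U403.MX.rho
      rw [neg_div, Real.arcsin_neg]
      ring
    rw [e]
    exact h1
  · intro Ω _ P _ X hX k
    obtain ⟨hXm, N, hN, hlim⟩ := hX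
    obtain ⟨h1, h2, h3⟩ := Pool.Agent.U403.MX.process P X hXm joint N hN.tendsto_atTop hlim k
    have h4 : Tendsto (fun n : ℕ => |P.real ({ω | (n : ℝ) < Pool.Agent.U403.MX.bs (fun i => X i ω) n 0} ∩
        {ω | (n : ℝ) < Pool.Agent.U403.MX.bs (fun i => X i ω) n (0 + n + k)}) -
        P.real {ω | (n : ℝ) < Pool.Agent.U403.MX.bs (fun i => X i ω) n 0} *
        P.real {ω | (n : ℝ) < Pool.Agent.U403.MX.bs (fun i => X i ω) n (0 + n + k)}|) atTop (𝓝 (1 / 12)) := by
      have := (h1.sub (h2.mul h3)).abs
      have e : |(1 / 6 : ℝ) - 1 / 2 * (1 / 2)| = 1 / 12 := by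
        rw [show (1 / 6 : ℝ) - 1 / 2 * (1 / 2) = -(1 / 12) by norm_num, abs_neg, abs_of_pos (by norm_num)]
      rw [e] at this
      exact this
    refine le_of_tendsto' h4 fun n => ?_
    apply le_csSup
    · refine ⟨1, ?_⟩
      rintro a ⟨m, A, B, _, _, rfl⟩
      have a1 : P.real (A ∩ B) ≤ 1 := measureReal_le_one
      have a2 : P.real A ≤ 1 := measureReal_le_one
      have a3 : P.real B ≤ 1 := measureReal_le_one
      have a4 : 0 ≤ P.real (A ∩ B) := measureReal_nonneg
      have a5 : 0 ≤ P.real A := measureReal_nonneg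
      have a6 : 0 ≤ P.real B := measureReal_nonneg
      rw [abs_le]
      constructor <;> nlinarith
    · refine ⟨n, _, _, ?_, ?_, rfl⟩
      · have hm : Measurable[⨆ i ∈ Set.Iio n, MeasurableSpace.comap (X i) inferInstance]
            (fun ω => Pool.Agent.U403.MX.bs (fun i => X i ω) n 0) := by
          unfold Pool.Agent.U403.MX.bs
          refine Finset.measurable_sum _ fun i hi => ?_
          rw [zero_add]
          have hle : MeasurableSpace.comap (X i) inferInstance ≤
              ⨆ i ∈ Set.Iio n, MeasurableSpace.comap (X i) inferInstance :=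
            le_iSup₂ (f := fun (i : ℕ) (_ : i ∈ Set.Iio n) => MeasurableSpace.comap (X i) inferInstance)
              i (Finset.mem_range.1 hi)
          exact (comap_measurable (X i)).mono hle le_rfl
        exact measurableSet_lt (mδ := ⨆ i ∈ Set.Iio n, MeasurableSpace.comap (X i) inferInstance)
          measurable_const hm
      · have hm : Measurable[⨆ i ∈ Set.Ici (n + k), MeasurableSpace.comap (X i) inferInstance]
            (fun ω => Pool.Agent.U403.MX.bs (fun i => X i ω) n (0 + n + k)) := by
          unfold Pool.Agent.U403.MX.bs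
          refine Finset.measurable_sum _ fun i hi => ?_
          have hle : MeasurableSpace.comap (X (0 + n + k + i)) inferInstance ≤
              ⨆ i ∈ Set.Ici (n + k), MeasurableSpace.comap (X i) inferInstance :=
            le_iSup₂ (f := fun (i : ℕ) (_ : i ∈ Set.Ici (n + k)) => MeasurableSpace.comap (X i) inferInstance)
              (0 + n + k + i) (by rw [Set.mem_Ici]; omega)
          exact (comap_measurable (X (0 + n + k + i))).mono hle le_rfl
        exact measurableSet_lt (mδ := ⨆ i ∈ Set.Ici (n + k), MeasurableSpace.comap (X i) inferInstance)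
          measurable_const hm

end Pool.Agent.Results.MP_7eacff_nt.NotStronglyMixing
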