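import Pool.Agent.X112.GS.NT2
import Pool.Agent.U965.ZL.Pw2

/-!
# Approximation of the zeros of zeta by locally linear sequences: the number of breaks is `exp (- K ^ 2)`

Let `0 < γ 1 ≤ γ 2 ≤ …` be the ordinates of the nontrivial zeros of the zeta function, with multiplicity, and
`y n = γ n log (γ n) / (2 π)` the unfolded ordinates (mean spacing one). No hypothesis is assumed.

How well can the sequence `y` be approximated at most places by a sequence `z` which is locally linear, that is,
`z (n + 2 Q) - 2 z (n + Q) + z n` is zero or very small except for few places `n`?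

1. (Lower bound.) For all `Q ≥ 1`, `η > 0` there is `C > 0` such that for all `K ≥ 1`, all large `N` and EVERY
   sequence `z`: if the second difference is greater than `exp (- C K ^ 2)` for at most `exp (- C K ^ 2) N` of the
   `n ≤ N`, then `|y n - z n| ≤ K` for at most `η N` of the `n ≤ N`.
2. (Upper bound.) For all `η > 0` there are `c, K₀ > 0` such that for all `K ≥ K₀` and all large `N` there is a
   sequence `z` with `z (n + 2) - 2 z (n + 1) + z n = 0` for all but `exp (- c K ^ 2) N` of the `n ≤ N` and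
   `|y n - z n| ≤ K` for all but `η N` of the `n ≤ N`.

So a piecewise linear sequence needs `exp (- Θ (K ^ 2)) N` breaks in order to be within `K` of the first `N`
unfolded ordinates at half of the places (or at any fixed proportion). This is the behaviour predicted by the GUE
hypothesis (rigidity: the variance of the number of zeros in a window of length `r` is of order `log r`). For the
Poisson process, or any process with independent spacings, the number of breaks would be of order `N / K ^ 2`.

Part 1 and the two probabilistic inputs of the proof (`X112.GS`: the fluctuations of the sums of `r` consecutive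
spacings are of the order `√(log r)`, from Selberg's and Fujii's central limit theorem) are from the library,
part 2 is new (`U965.ZL`): interpolation on a grid with a good offset.
-/

set_option autoImplicit false

open Filter

namespace Pool.Agent.Results.MP_7eacff_nt.PiecewiseLinearApproximation

/-- multiplicity of `s` as a zero of the Riemann zeta function (order of vanishing at `s`) -/
noncomputable def zmult (s : ℂ) : ℕ := analyticOrderNatAt riemannZeta s

/-- the number of nontrivial zeros of `ζ` with ordinate in `(0, t]`, with multiplicity -/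
noncomputable def NZ (t : ℝ) : ℕ :=
  ∑ᶠ s ∈ {s : ℂ | riemannZeta s = 0 ∧ 0 < s.re ∧ s.re < 1 ∧ 0 < s.im ∧ s.im ≤ t}, zmult s

/-- for `n ≥ 1`: the `n`-th positive ordinate `γ n` of a nontrivial zero of `ζ`, the ordinates being
listed in nondecreasing order and repeated according to multiplicity -/
noncomputable def γ (n : ℕ) : ℝ := sInf {t : ℝ | n ≤ NZ t}

/-- the unfolded ordinates -/
noncomputable def y (n : ℕ) : ℝ := γ n * Real.log (γ n) / (2 * Real.pi)

lemma y_eq (n : ℕ) : y n = Pool.Agent.X112.GS.yy n := rfl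

lemma cast_card (N : ℕ) (P : ℕ → Prop) [DecidablePred P] :
    (({n : ℕ | 1 ≤ n ∧ n ≤ N ∧ P n}.ncard : ℕ) : ℝ) = (((Finset.Icc 1 N).filter P).card : ℝ) := by
  congr 1
  rw [← Set.ncard_coe_finset]
  congr 1
  ext n
  simp [and_assoc]

theorem result :
    (∀ (Q : ℕ) (η : ℝ), 1 ≤ Q → 0 < η → ∃ C : ℝ, 0 < C ∧ ∀ K : ℝ, 1 ≤ K → ∀ᶠ N : ℕ in atTop,
      ∀ z : ℕ → ℝ,
      ({n : ℕ | 1 ≤ n ∧ n ≤ N ∧ Real.exp (-C * K ^ 2) < |z (n + 2 * Q) - 2 * z (n + Q) + z n|}.ncard : ℝ) ≤
        Real.exp (-C * K ^ 2) * N →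
      ({n : ℕ | 1 ≤ n ∧ n ≤ N ∧ |y n - z n| ≤ K}.ncard : ℝ) ≤ η * N) ∧
    (∀ η : ℝ, 0 < η → ∃ c K₀ : ℝ, 0 < c ∧ 0 < K₀ ∧ ∀ K : ℝ, K₀ ≤ K → ∀ᶠ N : ℕ in atTop,
      ∃ z : ℕ → ℝ,
      ({n : ℕ | 1 ≤ n ∧ n ≤ N ∧ z (n + 2) - 2 * z (n + 1) + z n ≠ 0}.ncard : ℝ) ≤
        Real.exp (-c * K ^ 2) * N ∧
      ({n : ℕ | 1 ≤ n ∧ n ≤ N ∧ K < |y n - z n|}.ncard : ℝ) ≤ η * N) := by
  classical
  refine ⟨?_, ?_⟩
  · intro Q η hQ hη
    obtain ⟨C, hC, h⟩ := Pool.Agent.X112.GS.quant Pool.Agent.X112.GS.anti2_yy
      Pool.Agent.X112.GS.lln2_yy Q hQ η hη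
    refine ⟨C, hC, fun K hK => ?_⟩
    filter_upwards [h K hK] with N hN z
    simp only [cast_card, y_eq]
    exact hN z
  · intro η hη
    obtain ⟨c, K₀, hc, hK₀, h⟩ := Pool.Agent.U965.ZL.approx
      (y := Pool.Agent.X112.GS.yy) Pool.Agent.X112.GS.lln2_yy η hη
    refine ⟨c, K₀, hc, hK₀, fun K hK => ?_⟩
    filter_upwards [h K hK] with N hN
    obtain ⟨z, hz1, hz2⟩ := hN
    refine ⟨z, ?_, ?_⟩
    · rw [cast_card]
      exact hz1
    · simp only [cast_card, y_eq]
      exact hz2

end Pool.Agent.Results.MP_7eacff_nt.PiecewiseLinearApproximation
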